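import Pool.Agent.helper83.LS.Spec

set_option autoImplicit false

namespace LSH

theorem CC_mono : ∀ (t : BT) (k : ℕ), dbl k t → dbl (k + 1) t := by
  intro t
  induction t with
  | leaf => intro k h; simp [dbl] at h
  | br a b _ _ => intro k h; simpa [dbl] using h
  | un t ih =>
    intro k h
    cases k with
    | zero => simp [dbl] at h
    | succ k =>
      simp only [dbl] at h ⊢
      exact ih k h

/-- if `dbl 2 t` and not `dbl 1 t` then `t = un (un t')` -/
theorem CC_two (t : BT) (h2 : dbl 2 t) (h1 : ¬ dbl 1 t) : ∃ t', t = .un (.un t') := by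
  cases t with
  | leaf => simp [dbl] at h2
  | br a b => exact absurd (by simpa [dbl] using h2) h1
  | un t =>
    cases t with
    | leaf => simp [dbl] at h2
    | br a b => exact absurd (by simpa [dbl] using h2) h1
    | un t => exact ⟨t, rfl⟩

theorem CC (hRP : RP_stmt) (hRW : RW_stmt) (hRL1 : RL1_stmt) (hRL2 : RL2_stmt) (hU3 : U3_stmt) :
    CC_stmt := by
  obtain ⟨hP0, hP1, hP2⟩ := hRP
  obtain ⟨hL0, hL1⟩ := hRL1
  have key : ∀ (n : ℕ) (t : BT), t.size = n → Cl t →
      LL t ∧ (¬ dbl 2 t → WW t) ∧ (¬ t.isBr → ¬ dbl 3 t → PP t) := by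
    intro n
    induction n using Nat.strong_induction_on with
    | _ n ih =>
      intro t hn hC
      cases t with
      | leaf => exact ⟨hL0, fun _ => hP2 _ hP0, fun _ _ => hP0⟩
      | un t =>
        have hCt : Cl t := hC
        have hlt : t.size < n := by
          have : (BT.un t).size = t.size + 1 := rfl
          omega
        obtain ⟨hL, hW, hP⟩ := ih _ hlt t rfl hCt
        have h3 : ¬ dbl 2 t → PP (.un t) := fun h => hP1 _ (hW h)
        refine ⟨hL1 _ hL, fun h => ?_, fun _ h => h3 ?_⟩
        · have h1 : ¬ dbl 1 t := h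
          by_cases h2 : dbl 2 t
          · obtain ⟨t', rfl⟩ := CC_two t h2 h1
            have hlt' : t'.size < n := by
              have : (BT.un (.un (.un t'))).size = t'.size + 1 + 1 + 1 := rfl
              omega
            exact hU3 _ (ih _ hlt' t' rfl hCt).1
          · exact hP2 _ (h3 h2)
        · exact h
      | br a b =>
        obtain ⟨hCa, hCb, hda, hdb⟩ := hC
        have hsz : (BT.br a b).size = a.size + b.size + 1 := rfl
        obtain ⟨hLa, hWa, hPa⟩ := ih _ (by omega) a rfl hCa
        obtain ⟨hLb, hWb, hPb⟩ := ih _ (by omega) b rfl hCb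
        have ha2 : WW a := hWa fun h => hda (CC_mono _ _ h)
        have hb2 : WW b := hWb fun h => hdb (CC_mono _ _ h)
        refine ⟨hRL2 _ _ ha2 hb2, fun h => ?_, fun h => ?_⟩
        · have h' : ¬ (a.isBr ∧ b.isBr) := h
          by_cases hab : a.isBr
          · have hbb : ¬ b.isBr := fun h0 => h' ⟨hab, h0⟩
            exact (hRW b a (hPb hbb hdb) ha2).2
          · exact (hRW a b (hPa hab hda) hb2).1
        · exact absurd trivial h
  intro t hC
  exact key _ t rfl hC

end LSH
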